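import Pool.Agent.H31.BOU.Targets1

/-!
# Row WIN: the window estimate on one block
-/

set_option autoImplicit false

namespace Pool.Agent.H1.BOU

open Finset Pool.Agent.H31.BOU

theorem ee_add (x y : ℝ) : ee (x + y) = ee x * ee y := by
  unfold ee
  rw [← Complex.exp_add]
  congr 1
  push_cast
  ring

theorem pf_WIN (hI : T_INV) (hA : T_ABL) (hL : T_LOG) : T_WIN := by
  intro H j m w τ Z B W L β hτ hZ hB hW hL0 hcf hH hw hwL
  obtain ⟨h1, h2, -⟩ := hI H j m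
  have hp : (0 : ℝ) < 2 ^ j := by positivity
  have hpc : ((2 ^ j : ℕ) : ℝ) = 2 ^ j := by push_cast; rfl
  -- the kernel
  have hxy : m * 2 ^ j ≤ (m + 1) * 2 ^ j := by
    have : (0 : ℤ) < 2 ^ j := by positivity
    nlinarith
  have hlen : (((m + 1) * 2 ^ j - m * 2 ^ j : ℤ) : ℝ) = 2 ^ j := by
    push_cast
    ring
  have hK : ∀ θ : ℝ, ‖∑ v ∈ blk j m, (w v : ℂ) * ee (θ * (v : ℝ))‖ ≤
      (W + L * 2 ^ j) * 2 ^ j / max 1 ((2 ^ j : ℝ) * nd θ) := by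
    intro θ
    obtain ⟨h3, h4⟩ := hA θ (m * 2 ^ j) ((m + 1) * 2 ^ j) w W L hxy hW hL0 hw hwL
    rw [hlen] at h3 h4
    change ‖∑ v ∈ Ico (m * 2 ^ j) ((m + 1) * 2 ^ j), (w v : ℂ) * ee (θ * (v : ℝ))‖ ≤ _
    set K := ‖∑ v ∈ Ico (m * 2 ^ j) ((m + 1) * 2 ^ j), (w v : ℂ) * ee (θ * (v : ℝ))‖ with hKdef
    have hK0 : 0 ≤ K := norm_nonneg _
    have hnd : 0 ≤ nd θ := abs_nonneg _
    have hLp : 0 ≤ L * 2 ^ j := mul_nonneg hL0 hp.le
    rw [le_div_iff₀ (lt_of_lt_of_le one_pos (le_max_left _ _))]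
    rcases le_total (1 : ℝ) ((2 ^ j : ℝ) * nd θ) with h5 | h5
    · rw [max_eq_right h5]
      have h6 : K * nd θ ≤ W + L * 2 ^ j := by nlinarith [mul_nonneg hK0 hnd]
      calc K * (2 ^ j * nd θ) = K * nd θ * 2 ^ j := by ring
        _ ≤ (W + L * 2 ^ j) * 2 ^ j := mul_le_mul_of_nonneg_right h6 hp.le
    · rw [max_eq_left h5, mul_one]
      refine h3.trans ?_
      exact mul_le_mul_of_nonneg_right (by linarith) hp.le
  -- expansion
  have hexp : ∑ v ∈ blk j m, (w v : ℂ) * H v * ee (-(β * (v : ℝ))) =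
      ∑ a ∈ range (2 ^ j), cf H j m a *
        ∑ v ∈ blk j m, (w v : ℂ) * ee (((a : ℝ) / 2 ^ j - β) * (v : ℝ)) := by
    simp only [Finset.mul_sum]
    rw [Finset.sum_comm]
    refine Finset.sum_congr rfl fun v hv => ?_
    rw [h1 v hv, Finset.mul_sum, Finset.sum_mul]
    refine Finset.sum_congr rfl fun a _ => ?_
    have h3 : ((a : ℝ) / 2 ^ j - β) * (v : ℝ) = (a : ℝ) * (v : ℝ) / 2 ^ j + -(β * (v : ℝ)) := by
      ring
    rw [h3, ee_add]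
    ring
  have hsq : ∑ a ∈ range (2 ^ j), ‖cf H j m a‖ ^ 2 ≤ Z ^ 2 := by
    have h3 : ∑ v ∈ blk j m, ‖H v‖ ^ 2 ≤ ∑ _v ∈ blk j m, Z ^ 2 :=
      Finset.sum_le_sum fun v hv => pow_le_pow_left₀ (norm_nonneg _) (hH v hv) 2
    have h4 : ∑ _v ∈ blk j m, Z ^ 2 = 2 ^ j * Z ^ 2 := by
      rw [Finset.sum_const, nsmul_eq_mul]
      congr 1
      unfold blk
      rw [Int.card_Ico]
      have h5 : (m + 1) * 2 ^ j - m * 2 ^ j = ((2 ^ j : ℕ) : ℤ) := by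
        push_cast
        ring
      rw [h5, Int.toNat_natCast]
      push_cast
      rfl
    rw [← h2, h4] at h3
    exact le_of_mul_le_mul_left h3 hp
  have hlog := hL (2 ^ j) β (fun a => ‖cf H j m a‖) τ Z B (by positivity) hτ hZ hB
    (fun a ha => ⟨norm_nonneg _, hcf a (Finset.mem_range.1 ha)⟩) hsq
  rw [hpc] at hlog
  have hc0 : 0 ≤ (W + L * 2 ^ j) * 2 ^ j := by positivity
  rw [hexp]
  calc ‖∑ a ∈ range (2 ^ j), cf H j m a *
        ∑ v ∈ blk j m, (w v : ℂ) * ee (((a : ℝ) / 2 ^ j - β) * (v : ℝ))‖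
      ≤ ∑ a ∈ range (2 ^ j), ‖cf H j m a‖ * ((W + L * 2 ^ j) * 2 ^ j /
          max 1 ((2 ^ j : ℝ) * nd ((a : ℝ) / 2 ^ j - β))) := by
        refine (norm_sum_le _ _).trans (Finset.sum_le_sum fun a _ => ?_)
        rw [norm_mul]
        exact mul_le_mul_of_nonneg_left (hK _) (norm_nonneg _)
    _ = (W + L * 2 ^ j) * 2 ^ j * ∑ a ∈ range (2 ^ j), ‖cf H j m a‖ /
          max 1 ((2 ^ j : ℝ) * nd ((a : ℝ) / 2 ^ j - β)) := by
        rw [Finset.mul_sum]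
        refine Finset.sum_congr rfl fun a _ => ?_
        ring
    _ ≤ _ := mul_le_mul_of_nonneg_left hlog hc0

end Pool.Agent.H1.BOU
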