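import Pool.Agent.H31.BOU.Targets1
import Pool.Agent.H1.BOU.WIN

/-!
# Row CHI: the trapezoid weight
-/

set_option autoImplicit false

namespace Pool.Agent.H1.BOU

open Finset Pool.Agent.H31.BOU

theorem nd_neg_le (x : ℝ) : nd (-x) ≤ nd x := by
  unfold nd
  refine (round_le (-x) (-round x)).trans (le_of_eq ?_)
  rw [← abs_neg]
  congr 1
  push_cast
  ring

theorem nd_neg (x : ℝ) : nd (-x) = nd x := by
  refine le_antisymm (nd_neg_le x) ?_
  have := nd_neg_le (-x)
  rwa [neg_neg] at this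

/-- the indicator of `[lo, hi)` -/
noncomputable def ind (lo hi v : ℤ) : ℝ := if lo ≤ v ∧ v < hi then 1 else 0

theorem ind_nonneg (lo hi v : ℤ) : 0 ≤ ind lo hi v := by
  unfold ind
  split_ifs <;> norm_num

theorem ind_le (lo hi v : ℤ) : ind lo hi v ≤ 1 := by
  unfold ind
  split_ifs <;> norm_num

theorem chi_eq (j : ℕ) (lo hi v : ℤ) :
    chi j lo hi v = (∑ u ∈ range (2 ^ j), ind lo hi (v - u)) / 2 ^ j := by
  unfold chi ind
  congr 1
  rw [Finset.card_filter]
  push_cast
  rfl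

theorem sum_range_int (P : ℕ) (f : ℤ → ℂ) :
    ∑ u ∈ range P, f (u : ℤ) = ∑ v ∈ Ico (0 : ℤ) P, f v := by
  refine Finset.sum_nbij' (fun u => (u : ℤ)) (fun v => v.toNat) ?_ ?_ ?_ ?_ ?_
  · intro u hu
    rw [Finset.mem_range] at hu
    rw [Finset.mem_Ico]
    omega
  · intro v hv
    rw [Finset.mem_Ico] at hv
    rw [Finset.mem_range]
    omega
  · intro u _
    exact Int.toNat_natCast u
  · intro v hv
    rw [Finset.mem_Ico] at hv
    exact Int.toNat_of_nonneg hv.1
  · intro u _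
    rfl

theorem pf_CHI (hG : T_GEO) : T_CHI := by
  intro j lo hi hlh
  have hp : (0 : ℝ) < 2 ^ j := by positivity
  have hpz : (0 : ℤ) < 2 ^ j := by positivity
  have hcast : ((2 ^ j : ℕ) : ℤ) = 2 ^ j := by push_cast; rfl
  refine ⟨fun v => ⟨?_, ?_, ?_⟩, fun v h1 h2 => ?_, fun v h => ?_, fun s β hs => ?_⟩
  · rw [chi_eq]
    exact div_nonneg (Finset.sum_nonneg fun u _ => ind_nonneg _ _ _) hp.le
  · rw [chi_eq, div_le_one hp]
    have h0 : ∑ u ∈ range (2 ^ j), ind lo hi (v - (u : ℤ)) ≤ ∑ _u ∈ range (2 ^ j), (1 : ℝ) :=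
      Finset.sum_le_sum fun u _ => ind_le lo hi (v - (u : ℤ))
    refine h0.trans (le_of_eq ?_)
    rw [Finset.sum_const, card_range, nsmul_eq_mul, mul_one]
    push_cast
    rfl
  · rw [chi_eq, chi_eq, ← sub_div, ← Finset.sum_sub_distrib, abs_div, abs_of_pos hp]
    refine div_le_div_of_nonneg_right ?_ hp.le
    have h1 : ∑ u ∈ range (2 ^ j), (ind lo hi (v + 1 - (u : ℤ)) - ind lo hi (v - (u : ℤ))) =
        ind lo hi (v + 1) - ind lo hi (v + 1 - ((2 ^ j : ℕ) : ℤ)) := by
      have h2 := Finset.sum_range_sub' (fun u : ℕ => ind lo hi (v + 1 - (u : ℤ))) (2 ^ j)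
      simp only [Nat.cast_zero, sub_zero] at h2
      rw [← h2]
      refine Finset.sum_congr rfl fun u _ => ?_
      congr 2
      push_cast
      ring
    rw [h1, abs_le]
    constructor
    · linarith [ind_nonneg lo hi (v + 1), ind_le lo hi (v + 1 - ((2 ^ j : ℕ) : ℤ))]
    · linarith [ind_le lo hi (v + 1), ind_nonneg lo hi (v + 1 - ((2 ^ j : ℕ) : ℤ))]
  · rw [chi_eq, div_eq_one_iff_eq hp.ne', Finset.sum_congr rfl (g := fun _ => (1 : ℝ))]
    · rw [Finset.sum_const, card_range, nsmul_eq_mul, mul_one]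
      push_cast
      rfl
    · intro u hu
      have hu' : (u : ℤ) < 2 ^ j := by
        rw [← hcast]
        exact_mod_cast Finset.mem_range.1 hu
      unfold ind
      rw [if_pos ⟨by omega, by omega⟩]
  · rw [chi_eq, div_eq_zero_iff]
    left
    refine Finset.sum_eq_zero fun u hu => ?_
    have hu' : (u : ℤ) < 2 ^ j := by
      rw [← hcast]
      exact_mod_cast Finset.mem_range.1 hu
    unfold ind
    rw [if_neg]
    rintro ⟨h1, h2⟩
    rcases h with h | h <;> omega
  · -- the Fourier transform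
    have hgeo : ∀ x y : ℤ, x ≤ y → ‖∑ v ∈ Ico x y, ee (-(β * (v : ℝ)))‖ * (2 * nd β) ≤ 1 := by
      intro x y hxy
      have h1 := (hG (-β) x y hxy).2
      rw [nd_neg] at h1
      have h2 : ∀ v : ℤ, -β * (v : ℝ) = -(β * (v : ℝ)) := fun v => by ring
      rw [Finset.sum_congr rfl fun v _ => by rw [h2 v]] at h1
      exact h1
    have hft : ft s (fun v => (chi j lo hi v : ℂ)) β =
        (∑ u ∈ Ico (0 : ℤ) ((2 ^ j : ℕ) : ℤ), ee (-(β * (u : ℝ)))) *
          (∑ w ∈ Ico lo hi, ee (-(β * (w : ℝ)))) / 2 ^ j := by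
      unfold ft
      have h1 : ∀ v ∈ s, (chi j lo hi v : ℂ) * ee (-(β * (v : ℝ))) =
          (∑ u ∈ range (2 ^ j), (ind lo hi (v - (u : ℤ)) : ℂ) * ee (-(β * (v : ℝ)))) / 2 ^ j := by
        intro v _
        rw [chi_eq]
        push_cast
        rw [← Finset.sum_mul]
        ring
      rw [Finset.sum_congr rfl h1, ← Finset.sum_div, Finset.sum_comm]
      congr 1
      rw [← sum_range_int (2 ^ j) (fun u => ee (-(β * (u : ℝ)))), Finset.sum_mul]
      refine Finset.sum_congr rfl fun u hu => ?_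
      have hu' : (u : ℤ) < 2 ^ j := by
        rw [← hcast]
        exact_mod_cast Finset.mem_range.1 hu
      rw [Finset.mul_sum]
      have h2 : ∀ v : ℤ, (ind lo hi (v - (u : ℤ)) : ℂ) * ee (-(β * (v : ℝ))) =
          if lo ≤ v - (u : ℤ) ∧ v - (u : ℤ) < hi then ee (-(β * (v : ℝ))) else 0 := by
        intro v
        unfold ind
        split_ifs <;> simp
      rw [Finset.sum_congr rfl fun v _ => h2 v, ← Finset.sum_filter]
      symm
      refine Finset.sum_nbij' (fun w => w + (u : ℤ)) (fun v => v - (u : ℤ)) ?_ ?_ ?_ ?_ ?_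
      · intro w hw
        rw [Finset.mem_Ico] at hw
        rw [Finset.mem_filter]
        refine ⟨hs (Finset.mem_Ico.2 ⟨by omega, by omega⟩), ?_, ?_⟩
        · rw [add_sub_cancel_right]; exact hw.1
        · rw [add_sub_cancel_right]; exact hw.2
      · intro v hv
        rw [Finset.mem_filter] at hv
        exact Finset.mem_Ico.2 hv.2
      · intro w _
        exact add_sub_cancel_right w (u : ℤ)
      · intro v _
        exact sub_add_cancel v (u : ℤ)
      · intro w _
        rw [← ee_add]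
        congr 1
        push_cast
        ring
    rw [hft, norm_div, norm_mul]
    have h3 : ‖(2 ^ j : ℂ)‖ = 2 ^ j := by
      rw [norm_pow]
      norm_num
    rw [h3]
    have h4 := hgeo 0 ((2 ^ j : ℕ) : ℤ) (by positivity)
    have h5 := hgeo lo hi hlh
    have hnd : 0 ≤ nd β := abs_nonneg _
    set X := ‖∑ u ∈ Ico (0 : ℤ) ((2 ^ j : ℕ) : ℤ), ee (-(β * (u : ℝ)))‖
    set Y := ‖∑ w ∈ Ico lo hi, ee (-(β * (w : ℝ)))‖
    have hX : 0 ≤ X := norm_nonneg _
    have hY : 0 ≤ Y := norm_nonneg _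
    have h6 : X * Y / 2 ^ j * (4 * 2 ^ j * nd β ^ 2) = (X * (2 * nd β)) * (Y * (2 * nd β)) := by
      field_simp
      ring
    rw [h6]
    exact mul_le_one₀ h4 (by positivity) h5

end Pool.Agent.H1.BOU
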