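import Pool.Agent.H31.BOU.Targets1

/-!
# Row SQN: sums over points and sums over nodes
-/

set_option autoImplicit false

namespace Pool.Agent.H1.BOU

open Finset Pool.Agent.H31.BOU

theorem sum_range_div (n m : ℕ) (g : ℕ → ℝ) :
    ∑ a ∈ range (n * m), g (a / m) = m * ∑ p ∈ range n, g p := by
  induction n with
  | zero => simp
  | succ n ih =>
    rw [Nat.succ_mul, Finset.sum_range_add, ih, Finset.sum_range_succ, mul_add]
    congr 1
    rw [Finset.sum_congr rfl (g := fun _ => g n), Finset.sum_const, card_range, nsmul_eq_mul]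
    intro x hx
    have hx' := Finset.mem_range.1 hx
    congr 1
    exact Nat.div_eq_of_lt_le (by omega) (by rw [Nat.succ_mul]; omega)

theorem pf_SQN : T_SQN := by
  intro J j f hj
  have hJ : 2 ^ J = 2 ^ (J - j) * 2 ^ j := by
    rw [← pow_add, Nat.sub_add_cancel hj]
  rw [hJ, sum_range_div (2 ^ (J - j)) (2 ^ j)
    (fun p => ∑ b ∈ range (2 ^ (J - j) * 2 ^ j), f p (b / 2 ^ j))]
  have h1 : ∀ p, ∑ b ∈ range (2 ^ (J - j) * 2 ^ j), f p (b / 2 ^ j) =
      ((2 ^ j : ℕ) : ℝ) * ∑ q ∈ range (2 ^ (J - j)), f p q := fun p =>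
    sum_range_div (2 ^ (J - j)) (2 ^ j) (fun q => f p q)
  rw [Finset.sum_congr rfl fun p _ => h1 p, ← Finset.mul_sum, ← mul_assoc]
  congr 1
  push_cast
  rw [← mul_pow]
  norm_num

end Pool.Agent.H1.BOU
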